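import Pool.Agent.V1167.GL.Loc
import Pool.Agent.H921R2.TatePole.Dedekind

/-!
# The residue in the analytic Nagao conjecture and Gaussian sums of the fibre averages

Let `k` be a number field, `f : 𝒳 → 𝒴` a fibration over `k` as in the problem, `m = dim 𝒴`. For the primes `𝔭 ∉ R` put

`𝔄*_𝔭 = q_𝔭^{-m} ∑_{y ∈ 𝒴_𝔭(𝔽_𝔭)} a_𝔭(f_𝔭^{-1}(y)) - a_𝔭(B)`,

and `D(s) = ∑_{𝔭 ∉ R} 𝔄*_𝔭 (log q_𝔭) q_𝔭^{-s}`. The numbers `𝔄*_𝔭` are bounded (a consequence of Deligne's theorem), so
that the series converges absolutely for `Re s > 1`; nothing else is used about them. The conjecture says that `D` has a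
meromorphic continuation to `s = 1`, with residue `-rank (P_X(K)/τB(k))`.

For `η > 0` and `T > 0` put

`G_η(T) = (4πT)^{-1/2} ∑_{𝔭 ∉ R} 𝔄*_𝔭 (log q_𝔭)² q_𝔭^{-1+η} exp(-(log q_𝔭)² / (4T))`.

Nothing is assumed on a continuation of `D` to any point outside the half plane of absolute convergence. It is
shown that for every real number `ρ`, for example `ρ = -rank (P_X(K)/τB(k))`, the following are equivalent:

(i) `D` has a meromorphic continuation to a neighbourhood of `s = 1`, with at most a simple pole at `1`, of residue `ρ`;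

(ii) for all sufficiently small `η > 0` and all `ε > 0`: `G_η(T) = 2ηρ T exp(η² T) + O(exp(ε T))`, `T → ∞`;

(iii) there are `η > 0` and `0 ≤ θ < η²` such that `G_η(T) = 2ηρ T exp(η² T) + O(exp(θ T))`, `T → ∞`.

So both the existence of the residue and its value are equivalent to one asymptotic formula with a power saving, for
sums of the fibre averages with positive weights; neither the points `1 + it` of the line nor anything to the left of
the line, outside of a neighbourhood of `1`, matters.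

The proof: the Laplace transform of `G_η(T) / T` is `D(1 - η + √w)`. For `Re w > 0` the number `√w` lies in the sector
`|Im z| < Re z`; the part of this sector to the left of the line `Re z = η` lies in the disc `|z - η| < 2η`, so that for
small `η` the function `D(1 - η + √w)` is defined on the whole half plane `Re w > 0`, up to the pole at `w = η²`, with
residue `2ηρ`. In the other direction a bound `O(exp(θ T))` for the difference gives the continuation of its Laplace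
transform to `Re w > θ`, which contains `w = η²`.
-/

set_option autoImplicit false

namespace Pool.Agent.Results.MP_3d3918_nt.ResidueByGaussianSums

open Filter Topology Set NumberField IsDedekindDomain

variable {k : Type} [Field k] [NumberField k]

/-- The norm `q_𝔭`. -/
noncomputable def nrm (p : HeightOneSpectrum (𝓞 k)) : ℕ := Ideal.absNorm p.asIdeal

/-- The fibre average minus the trace of `B`: `𝔄*_𝔭 = q_𝔭^{-m} ∑_y a_𝔭(y) - b_𝔭`. Here `Y 𝔭` is the finite set
`𝒴_𝔭(𝔽_𝔭)`, `a 𝔭 y` is the trace of Frobenius on `H^1` of the fibre over `y`, and `b 𝔭` is the trace on `H^1(B)`. -/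
noncomputable def Astar (m : ℕ) (Y : HeightOneSpectrum (𝓞 k) → Type) [∀ p, Fintype (Y p)]
    (a : ∀ p, Y p → ℝ) (b : HeightOneSpectrum (𝓞 k) → ℝ) (p : HeightOneSpectrum (𝓞 k)) : ℝ :=
  (∑ y, a p y) / (nrm p : ℝ) ^ m - b p

/-- The Dirichlet series `D(s) = ∑_{𝔭 ∉ R} A_𝔭 (log q_𝔭) q_𝔭^{-s}`. -/
noncomputable def series (R : Set (HeightOneSpectrum (𝓞 k))) (A : HeightOneSpectrum (𝓞 k) → ℝ)
    (s : ℂ) : ℂ :=
  ∑' p : {p : HeightOneSpectrum (𝓞 k) // p ∉ R},
    ((A p.1 * Real.log (nrm p.1) : ℝ) : ℂ) * (nrm p.1 : ℂ) ^ (-s)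

/-- `D` has a meromorphic continuation `F` to a neighbourhood of `s = 1`, with at most a simple pole at `1`, and the
residue `ρ`: `F` is meromorphic at `1`, `(s - 1) F(s) → ρ` for `s → 1`, and for `Re s > 1` near `1` `F(s) = D(s)`. -/
def HasResidue (R : Set (HeightOneSpectrum (𝓞 k))) (A : HeightOneSpectrum (𝓞 k) → ℝ) (ρ : ℝ) : Prop :=
  ∃ F : ℂ → ℂ, MeromorphicAt F 1 ∧ Tendsto (fun s => (s - 1) * F s) (𝓝[≠] 1) (𝓝 (ρ : ℂ)) ∧
    ∃ r : ℝ, 0 < r ∧ ∀ s : ℂ, 1 < s.re → ‖s - 1‖ < r → F s = series R A s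

/-- The Gaussian sum
`G_η(T) = (4πT)^{-1/2} ∑_{𝔭 ∉ R} A_𝔭 (log q_𝔭)² q_𝔭^{-1+η} exp(-(log q_𝔭)² / (4T))`. -/
noncomputable def gauss (R : Set (HeightOneSpectrum (𝓞 k))) (A : HeightOneSpectrum (𝓞 k) → ℝ)
    (η T : ℝ) : ℝ :=
  (Real.sqrt (4 * Real.pi * T))⁻¹ * ∑' p : {p : HeightOneSpectrum (𝓞 k) // p ∉ R},
    A p.1 * Real.log (nrm p.1) ^ 2 * (nrm p.1 : ℝ) ^ (-1 + η) *
      Real.exp (-(Real.log (nrm p.1) ^ 2 / (4 * T)))

/-- `G_η(T) = 2ηρ T exp(η² T) + O(exp(θ T))` for `T → ∞`. -/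
def GaussLaw (R : Set (HeightOneSpectrum (𝓞 k))) (A : HeightOneSpectrum (𝓞 k) → ℝ)
    (ρ η θ : ℝ) : Prop :=
  ∃ C : ℝ, ∀ᶠ T : ℝ in atTop,
    |gauss R A η T - 2 * η * ρ * T * Real.exp (η ^ 2 * T)| ≤ C * Real.exp (θ * T)

open Pool.Agent.V1167.GL
open Pool.Agent.V11291.GS
open Pool.Agent.H921R2.TatePole (nm two_le_nm nm_summable)

instance countable_primes : Countable (HeightOneSpectrum (𝓞 k)) := by
  have h1 := (nm_summable (K := k) (x := 2) (by norm_num)).countable_support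
  have h2 : Function.support (fun v : HeightOneSpectrum (𝓞 k) => (nm v : ℝ) ^ (-(2 : ℝ))) =
      Set.univ := by
    ext v
    simp only [Function.mem_support, Set.mem_univ, iff_true]
    have hp2 : (2 : ℝ) ≤ nm v := by exact_mod_cast two_le_nm v
    have : (0 : ℝ) < nm v := by linarith
    positivity
  rwa [h2, Set.countable_univ_iff] at h1

lemma two_le (v : HeightOneSpectrum (𝓞 k)) : (2 : ℝ) ≤ nrm v := by
  exact_mod_cast two_le_nm v

variable {R : Set (HeightOneSpectrum (𝓞 k))} {A : HeightOneSpectrum (𝓞 k) → ℝ}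

/-- the exponents -/
noncomputable def ex0 (R : Set (HeightOneSpectrum (𝓞 k))) (p : {p : HeightOneSpectrum (𝓞 k) // p ∉ R}) : ℝ :=
  Real.log (nrm p.1)

/-- the coefficients -/
noncomputable def co (R : Set (HeightOneSpectrum (𝓞 k))) (A : HeightOneSpectrum (𝓞 k) → ℝ)
    (p : {p : HeightOneSpectrum (𝓞 k) // p ∉ R}) : ℂ := ((A p.1 * Real.log (nrm p.1) : ℝ) : ℂ)

lemma ds_of {C : ℝ} (hA : ∀ p ∉ R, |A p| ≤ C) : DS (ex0 R) (co R A) (Real.log 2) where
  δ0 := Real.log_pos (by norm_num)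
  ge := fun p => Real.log_le_log (by norm_num) (two_le p.1)
  sum := fun σ hσ => by
    set t : ℝ := (σ - 1) / 2 with ht
    have ht0 : 0 < t := by rw [ht]; linarith
    have h1 : Summable fun p : {p : HeightOneSpectrum (𝓞 k) // p ∉ R} =>
        (C * t⁻¹) * (nrm p.1 : ℝ) ^ (-(1 + t)) :=
      ((nm_summable (K := k) (x := 1 + t) (by linarith)).subtype {p | p ∉ R}).mul_left _
    refine Summable.of_nonneg_of_le (fun p => by positivity) (fun p => ?_) h1
    have hq2 := two_le p.1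
    have hq0 : (0 : ℝ) < nrm p.1 := by linarith
    have hC : 0 ≤ C := (abs_nonneg _).trans (hA p.1 p.2)
    have hl : 0 ≤ Real.log (nrm p.1) := Real.log_nonneg (by linarith)
    have hlog : Real.log (nrm p.1) ≤ t⁻¹ * (nrm p.1 : ℝ) ^ t := by
      have := Real.log_le_rpow_div hq0.le ht0
      rwa [div_eq_inv_mul] at this
    have e1 : Real.exp (-(σ * ex0 R p)) = (nrm p.1 : ℝ) ^ (-σ) := by
      rw [Real.rpow_def_of_pos hq0]
      congr 1
      unfold ex0
      ring
    have e2 : ‖co R A p‖ = |A p.1| * Real.log (nrm p.1) := by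
      unfold co
      rw [Complex.norm_real, Real.norm_eq_abs, abs_mul, abs_of_nonneg hl]
    rw [e1, e2]
    calc _ ≤ C * (t⁻¹ * (nrm p.1 : ℝ) ^ t) * (nrm p.1 : ℝ) ^ (-σ) := by
          gcongr
          exact hA p.1 p.2
      _ = (C * t⁻¹) * ((nrm p.1 : ℝ) ^ t * (nrm p.1 : ℝ) ^ (-σ)) := by ring
      _ = _ := by
        rw [← Real.rpow_add hq0]
        congr 2
        rw [ht]
        ring

lemma series_eq (R : Set (HeightOneSpectrum (𝓞 k))) (A : HeightOneSpectrum (𝓞 k) → ℝ) (s : ℂ) :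
    series R A s = ll (ex0 R) (co R A) s := by
  unfold series ll
  refine tsum_congr fun p => ?_
  have hq2 := two_le p.1
  have h0 : (nrm p.1 : ℂ) ≠ 0 := by exact_mod_cast (by linarith : (0 : ℝ) < nrm p.1).ne'
  unfold co ex0
  rw [Complex.cpow_def_of_ne_zero h0, Complex.natCast_log]
  congr 2
  ring

lemma gauss_eq (R : Set (HeightOneSpectrum (𝓞 k))) (A : HeightOneSpectrum (𝓞 k) → ℝ) (η T : ℝ) :
    (gauss R A η T : ℂ) = G (ex0 R) (cA (ex0 R) (co R A) (η - 1)) T := by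
  unfold gauss G
  rw [Complex.ofReal_mul, Complex.ofReal_tsum, ← tsum_mul_left]
  refine tsum_congr fun p => ?_
  have hq2 := two_le p.1
  have hq0 : (0 : ℝ) < nrm p.1 := by linarith
  have h1 : (nrm p.1 : ℝ) ^ (-1 + η) = Real.exp ((η - 1) * ex0 R p) := by
    rw [Real.rpow_def_of_pos hq0]
    congr 1
    unfold ex0
    ring
  rw [h1]
  unfold cA co kr ex0
  push_cast
  ring

lemma norm_er (R : Set (HeightOneSpectrum (𝓞 k))) (A : HeightOneSpectrum (𝓞 k) → ℝ) (ρ η T : ℝ) :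
    ‖er (ex0 R) (co R A) (ρ : ℂ) η T‖ =
      |gauss R A η T - 2 * η * ρ * T * Real.exp (η ^ 2 * T)| := by
  have h1 : er (ex0 R) (co R A) (ρ : ℂ) η T =
      ((gauss R A η T - 2 * η * ρ * T * Real.exp (η ^ 2 * T) : ℝ) : ℂ) := by
    unfold er
    rw [← gauss_eq]
    push_cast
    rfl
  rw [h1, Complex.norm_real, Real.norm_eq_abs]

lemma sub_iff (R : Set (HeightOneSpectrum (𝓞 k))) (A : HeightOneSpectrum (𝓞 k) → ℝ) (ρ η θ : ℝ) :
    Pool.Agent.V1167.GL.Sub (er (ex0 R) (co R A) (ρ : ℂ) η) θ ↔ ∀ ε : ℝ, 0 < ε → GaussLaw R A ρ η (θ + ε) := by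
  unfold Pool.Agent.V1167.GL.Sub GaussLaw
  simp only [norm_er]

lemma hasResidue_iff (R : Set (HeightOneSpectrum (𝓞 k))) (A : HeightOneSpectrum (𝓞 k) → ℝ) (ρ : ℝ) :
    HasResidue R A ρ ↔ Res1 (ex0 R) (co R A) (ρ : ℂ) := by
  constructor
  · rintro ⟨F, h1, h2, r, hr, h3⟩
    set F₁ : ℂ → ℂ := fun s => F s - ρ / (s - 1) with hF₁
    have hm : MeromorphicAt F₁ 1 := h1.fun_sub (by fun_prop)
    have hlin : MeromorphicAt (fun s : ℂ => s - 1) 1 := by fun_prop
    have h4 : Tendsto ((fun s : ℂ => s - 1) * F₁) (𝓝[≠] 1) (𝓝 0) := by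
      have e1 : Tendsto (fun s => (s - 1) * F s - (ρ : ℂ)) (𝓝[≠] 1) (𝓝 ((ρ : ℂ) - ρ)) :=
        h2.sub_const _
      rw [sub_self] at e1
      refine e1.congr' ?_
      filter_upwards [self_mem_nhdsWithin] with s hs
      have hs1 : s - 1 ≠ 0 := sub_ne_zero.2 hs
      rw [hF₁, Pi.mul_apply]
      field_simp
    have h5 := (tendsto_zero_iff_meromorphicOrderAt_pos (hlin.mul hm)).1 h4
    rw [meromorphicOrderAt_mul hlin hm] at h5
    have h6 : meromorphicOrderAt (fun s : ℂ => s - 1) 1 = 1 := by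
      have : meromorphicOrderAt (fun s : ℂ => s - 1) 1 = ((1 : ℤ) : WithTop ℤ) := by
        rw [meromorphicOrderAt_eq_int_iff hlin]
        refine ⟨fun _ => 1, analyticAt_const, one_ne_zero, ?_⟩
        filter_upwards with s
        simp
      exact this
    rw [h6] at h5
    have h7 : 0 ≤ meromorphicOrderAt F₁ 1 := by
      rcases h8 : meromorphicOrderAt F₁ 1 with _ | o
      · exact le_top
      · rw [h8] at h5
        change ((0 : ℤ) : WithTop ℤ) < ((1 : ℤ) : WithTop ℤ) + ((o : ℤ) : WithTop ℤ) at h5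
        rw [← WithTop.coe_add, WithTop.coe_lt_coe] at h5
        change ((0 : ℤ) : WithTop ℤ) ≤ ((o : ℤ) : WithTop ℤ)
        rw [WithTop.coe_le_coe]
        omega
    have h9 : AnalyticAt ℂ (toMeromorphicNFAt F₁ 1) 1 :=
      (hm.meromorphicOrderAt_nonneg_iff_analyticAt_toMeromorphicNFAt).1 h7
    have h10 : F₁ =ᶠ[𝓝[≠] 1] toMeromorphicNFAt F₁ 1 := hm.eq_nhdsNE_toMeromorphicNFAt
    rw [eventuallyEq_nhdsWithin_iff] at h10
    obtain ⟨r₂, hr₂, h11⟩ := Metric.eventually_nhds_iff_ball.1 h10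
    refine ⟨toMeromorphicNFAt F₁ 1, h9, min r r₂, lt_min hr hr₂, fun s hs hsr => ?_⟩
    have hs1 : s ≠ 1 := fun h => by
      rw [h, Complex.one_re] at hs
      exact lt_irrefl _ hs
    rw [← series_eq, ← h3 s hs (hsr.trans_le (min_le_left _ _)), ← h11 s (by
      rw [Metric.mem_ball, dist_eq_norm]
      exact hsr.trans_le (min_le_right _ _)) hs1, hF₁]
    ring
  · rintro ⟨H, h1, r, hr, h2⟩
    refine ⟨fun s => ρ / (s - 1) + H s, MeromorphicAt.fun_add (by fun_prop) h1.meromorphicAt, ?_,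
      r, hr, fun s hs hsr => ?_⟩
    · have e1 : Tendsto (fun s : ℂ => (ρ : ℂ) + (s - 1) * H s) (𝓝[≠] 1) (𝓝 ((ρ : ℂ) + (1 - 1) * H 1)) := by
        refine Tendsto.mono_left ?_ nhdsWithin_le_nhds
        have hc : ContinuousAt (fun s : ℂ => (ρ : ℂ) + (s - 1) * H s) 1 :=
          continuousAt_const.add ((by fun_prop : ContinuousAt (fun s : ℂ => s - 1) 1).mul
            h1.continuousAt)
        exact hc.tendsto
      rw [sub_self, zero_mul, add_zero] at e1
      refine e1.congr' ?_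
      filter_upwards [self_mem_nhdsWithin] with s hs
      have hs1 : s - 1 ≠ 0 := sub_ne_zero.2 hs
      field_simp
    · simp only
      rw [series_eq, h2 s hs hsr]

/-- **Theorem.** Let `k` be a number field, `R` a set of primes of `k`, `m ≥ 0`. For the primes `𝔭` let `Y 𝔭` be a finite
set, `a 𝔭 : Y 𝔭 → ℝ`, `b 𝔭 ∈ ℝ`, and `A 𝔭 = q_𝔭^{-m} ∑_y a 𝔭 y - b 𝔭`, with `|A 𝔭| ≤ C` for all `𝔭 ∉ R`. The series
`D(s) = ∑_{𝔭 ∉ R} A_𝔭 (log q_𝔭) q_𝔭^{-s}` converges absolutely for `Re s > 1`, and for every real number `ρ` the following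
are equivalent: (i) `D` has a meromorphic continuation to a neighbourhood of `s = 1`, with at most a simple pole at `1`, of
residue `ρ`; (ii) there is `η₀ > 0` with `G_η(T) = 2ηρ T exp(η² T) + O(exp(ε T))` for all `0 < η < η₀` and `ε > 0`;
(iii) there are `η > 0` and `0 ≤ θ < η²` with `G_η(T) = 2ηρ T exp(η² T) + O(exp(θ T))`. -/
theorem result (R : Set (HeightOneSpectrum (𝓞 k))) (m : ℕ) (Y : HeightOneSpectrum (𝓞 k) → Type)
    [∀ p, Fintype (Y p)] (a : ∀ p, Y p → ℝ) (b : HeightOneSpectrum (𝓞 k) → ℝ) (C : ℝ)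
    (hA : ∀ p ∉ R, |Astar m Y a b p| ≤ C) :
    (∀ s : ℂ, 1 < s.re → Summable fun p : {p : HeightOneSpectrum (𝓞 k) // p ∉ R} =>
      ‖((Astar m Y a b p.1 * Real.log (nrm p.1) : ℝ) : ℂ) * (nrm p.1 : ℂ) ^ (-s)‖) ∧
    ∀ ρ : ℝ, List.TFAE [
      HasResidue R (Astar m Y a b) ρ,
      ∃ η₀ : ℝ, 0 < η₀ ∧ ∀ η : ℝ, 0 < η → η < η₀ → ∀ ε : ℝ, 0 < ε →
        GaussLaw R (Astar m Y a b) ρ η ε,
      ∃ η θ : ℝ, 0 < η ∧ 0 ≤ θ ∧ θ < η ^ 2 ∧ GaussLaw R (Astar m Y a b) ρ η θ] := by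
  have D := ds_of hA
  refine ⟨fun s hs => ?_, fun ρ => ?_⟩
  · refine (D.sum s.re hs).congr fun p => ?_
    have hq2 := two_le p.1
    have hq0 : (0 : ℝ) < nrm p.1 := by linarith
    rw [norm_mul, Complex.norm_natCast_cpow_of_pos (by exact_mod_cast hq0), Complex.neg_re,
      Real.rpow_def_of_pos hq0]
    unfold co ex0
    congr 2
    ring
  · tfae_have 1 → 2 := by
      intro h
      obtain ⟨η₀, h1, h2⟩ := res_up D ((hasResidue_iff R _ ρ).1 h)
      refine ⟨η₀, h1, fun η h3 h4 ε hε => ?_⟩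
      have h5 := (sub_iff R _ ρ η 0).1 (h2 η h3 h4) ε hε
      rwa [zero_add] at h5
    tfae_have 2 → 3 := by
      rintro ⟨η₀, h1, h2⟩
      refine ⟨η₀ / 2, (η₀ / 2) ^ 2 / 2, by positivity, by positivity, by
        have : 0 < (η₀ / 2) ^ 2 := by positivity
        linarith, h2 _ (by positivity) (by linarith) _ (by positivity)⟩
    tfae_have 3 → 1 := by
      rintro ⟨η, θ, h1, h2, h3, C', h4⟩
      rw [hasResidue_iff]
      refine res_down D h1 h2 h3 ((sub_iff R _ ρ η θ).2 fun ε hε => ⟨|C'|, ?_⟩)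
      filter_upwards [h4, eventually_gt_atTop 0] with T hT hT0
      calc _ ≤ C' * Real.exp (θ * T) := hT
        _ ≤ |C'| * Real.exp ((θ + ε) * T) := by
          gcongr
          · exact le_abs_self C'
          · linarith
    tfae_finish

end Pool.Agent.Results.MP_3d3918_nt.ResidueByGaussianSums
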