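import Pool.Agent.V11210.NF.FamW

/-!
# The analytic form of Nagao's conjecture for all quadratic twists of almost all fibrations with `r` arbitrary prescribed sections
# whose coefficients arise from arbitrary integers by changing a few digits

`β_1, …, β_r` are different polynomials in the coordinates `t` of the base and `S` is a polynomial in `x` and `t`.  The curves
`y² = (x - β_1(t)) ⋯ (x - β_r(t)) (x^(D-r) + G_c(x, t)) + S(x, t)²` have the sections `(β_j(t), S(β_j(t), t))`.  The coefficients `c`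
of `G_c` are the random quantities.  For an integer `d` the twist is `d y² = F_c(x, t)`; if `d` is a square it has the same `r`
sections, if `d` is not a square the sections are defined over `ℚ(√d)` only, on which the Galois group acts by the character
`(d/·)`.
-/

set_option autoImplicit false

namespace Pool.Agent.Results.MP_3d3918_nt.TwistsOfFewDigitFibrations

open Finset MvPolynomial

variable {m r : ℕ}

/-- The polynomial `F_c(x, t) = ∏_j (x - β_j(t)) (x^(D-r) + ∑ c_(a,α) x^a t^α) + S(x, t)²`, where `x = X 0`, the variables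
`X 1, …, X (m + 1)` are the coordinates `t` of the base and `a < D - r`, `α_j ≤ e`. -/
noncomputable def equation (D e : ℕ) (β : Fin r → MvPolynomial (Fin (m + 1)) ℤ) (S : MvPolynomial (Fin (m + 1 + 1)) ℤ)
    (c : Fin (D - r) × (Fin (m + 1) → Fin (e + 1)) → ℤ) : MvPolynomial (Fin (m + 1 + 1)) ℤ :=
  (∏ j, (X 0 - rename Fin.succ (β j))) *
    (X 0 ^ (D - r) + ∑ i, C (c i) * (X 0 ^ (i.1 : ℕ) * ∏ j, X (Fin.succ j) ^ (i.2 j : ℕ))) + S ^ 2

/-- The number of the solutions modulo `p` of `d y² = F(x, t)` in all variables `x`, `t`, `y`. -/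
noncomputable def points (F : MvPolynomial (Fin (m + 1 + 1)) ℤ) (d : ℤ) (p : ℕ) : ℕ :=
  Nat.card {P : (Fin (m + 1 + 1) → ZMod p) × ZMod p // (d : ZMod p) * P.2 ^ 2 = aeval P.1 F}

/-- The fibre average `𝔄_p` of the twist `d y² = F(x, t)`: the fibre over a point `t` of the base `𝔸^(m+1)` has the trace
`p - #{(x, y) : d y² = F(x, t)}` (there is one point at infinity, since `F` is of odd degree in `x`), and `𝔄_p` is the sum of these
traces over all `t` divided by `p^(m+1)`, that is `p - points F d p / p^(m+1)`. -/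
noncomputable def average (F : MvPolynomial (Fin (m + 1 + 1)) ℤ) (d : ℤ) (p : ℕ) : ℝ := p - points F d p / (p : ℝ) ^ (m + 1)

open Classical in
/-- `∑ (𝔄_p + r (d/p)) (log p) p^(-s)` over the primes `T₁ ≤ p < T₂` outside `R` which do not divide `2 d`, `𝔄_p` for the twist by
`d` and `(d/p)` the Legendre symbol. -/
noncomputable def series (F : MvPolynomial (Fin (m + 1 + 1)) ℤ) (r : ℕ) (d : ℤ) (R : Set ℕ) (T₁ T₂ : ℕ) (s : ℂ) : ℂ :=
  ∑ p ∈ (Ico T₁ T₂).filter (fun p : ℕ => p.Prime ∧ p ∉ R ∧ ¬ (p : ℤ) ∣ 2 * d),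
    (((average F d p + r * jacobiSym d p) * Real.log p : ℝ) : ℂ) * (p : ℂ) ^ (-s)

/-- The digit number `i` (counted from the right, beginning with `0`) of `n` in base `b`. -/
def digit (b i n : ℕ) : ℕ := n / b ^ i % b

/-- The number which arises from the number `N` with at most `K` digits in base `b`, if for every `i ∈ S`
the digit number `i` is replaced by `f i`. -/
def change (b K N : ℕ) (f : ℕ → ℕ) (S : Finset ℕ) : ℕ :=
  ∑ i ∈ range K, (if i ∈ S then f i else digit b i N) * b ^ i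

open Classical in
/-- The number of the choices of `k l` of `K l` positions for all indices `l` for which the vector of the numbers obtained by
changing the digits of the `N l` at the chosen positions (according to `f l`) does not have the property `E`. -/
noncomputable def exceptions {ι : Type} [Fintype ι] [DecidableEq ι] (b : ℕ) (K k N : ι → ℕ) (f : ι → ℕ → ℕ)
    (E : (ι → ℕ) → Prop) : ℕ :=
  ((Fintype.piFinset (fun l => powersetCard (k l) (range (K l)))).filter
    (fun S => ¬ E (fun l => change b (K l) (N l) (f l) (S l)))).card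

/-- **The Dirichlet series of Nagao's averages in the half-plane `Re s ≥ 1/2 + 2 δ` for all quadratic twists of almost all members
of thin families of fibrations with `r` prescribed sections.** `σ` is an arbitrary integer vector, to which the vector of the changed
numbers is added; `P` is a nonzero polynomial in the coefficients (for instance a discriminant) and `R` any set of divisors of its
value at the coefficients. -/
theorem result {D e : ℕ} (hD : Odd D) (hr : r + 2 ≤ D) (he : 1 ≤ e)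
    (β : Fin r → MvPolynomial (Fin (m + 1)) ℤ) (hβ : Function.Injective β)
    (S : MvPolynomial (Fin (m + 1 + 1)) ℤ) (hS : 2 * degreeOf 0 S < D)
    (hS' : ∀ j, aeval (Fin.cons (β j) X : Fin (m + 1 + 1) → MvPolynomial (Fin (m + 1)) ℤ) S ≠ 0)
    (P : MvPolynomial (Fin (D - r) × (Fin (m + 1) → Fin (e + 1))) ℤ) (hP : P ≠ 0)
    (b : ℕ) (hb : 2 ≤ b) (δ : ℝ) (hδ : 0 < δ) (hδ' : δ ≤ 1 / 2) (A B : ℕ) :
    ∃ c : ℝ, 0 < c ∧ ∃ y₀ : ℕ, ∀ (K k : Fin (D - r) × (Fin (m + 1) → Fin (e + 1)) → ℕ) (y : ℕ),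
      (∀ l, 2 * k l ≤ K l) → y₀ ≤ y → ∀ N : Fin (D - r) × (Fin (m + 1) → Fin (e + 1)) → ℕ, (∀ l, N l < b ^ K l) →
      ∀ f : Fin (D - r) × (Fin (m + 1) → Fin (e + 1)) → ℕ → ℕ, (∀ l j, f l j < b ∧ f l j ≠ digit b j (N l)) →
      ∀ σ : Fin (D - r) × (Fin (m + 1) → Fin (e + 1)) → ℤ,
      (exceptions b K k N f (fun n => ∀ T₁ T₂ : ℕ, y ≤ T₁ → T₁ ≤ T₂ → (∀ l, (T₂ : ℝ) ≤ Real.exp (c * k l)) →
        ∀ d : ℤ, |d| ≤ (T₁ : ℤ) ^ B → ∀ R : Set ℕ, (∀ p ∈ R, (p : ℤ) ∣ eval (fun l => σ l + n l) P) →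
        ∀ s : ℂ, 1 / 2 + 2 * δ ≤ s.re →
        ‖series (equation D e β S (fun l => σ l + n l)) r d R T₁ T₂ s‖ ≤ (2 + 4 * ‖s‖ / δ) * (T₁ : ℝ) ^ (-δ)) : ℝ) ≤
      1 / (y : ℝ) ^ A * ∏ l, ((K l).choose (k l) : ℝ) := by
  classical
  haveI : Nonempty (Pool.Agent.V11210.NF.Mo m r D e) := ⟨(⟨0, by omega⟩, fun _ => 0)⟩
  obtain ⟨C₀, hC₀⟩ := Pool.Agent.V11210.NF.bsum_dir (D := D) (e := e) (by omega) β hβ S hS'
  obtain ⟨c, hc, y₀, h⟩ := Pool.Agent.V11210.NF.familyW (m := m + 1) (by omega) (Pool.Agent.V11210.NF.base0 D β S)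
    (Pool.Agent.V11210.NF.dir D e β) D hD (Pool.Agent.V11210.NF.monic_base0 (by omega) β S hS)
    (fun i => Pool.Agent.V11210.NF.low_dir β i) 0 r C₀ (fun p hp _ => by
      haveI : Fact p.Prime := ⟨hp⟩
      exact Pool.Agent.V11210.NF.sep_dir hr he β p) hC₀ P hP b hb δ hδ hδ' A B
  refine ⟨c, hc, y₀ + 2, fun K k y hK hy N hN f hf σ => ?_⟩
  have key := h K k y hK (by omega) N hN f hf σ (fun n => ∀ T₁ T₂ : ℕ, y ≤ T₁ → T₁ ≤ T₂ → (∀ l, (T₂ : ℝ) ≤ Real.exp (c * k l)) →
        ∀ d : ℤ, |d| ≤ (T₁ : ℤ) ^ B → ∀ R : Set ℕ, (∀ p ∈ R, (p : ℤ) ∣ eval (fun l => σ l + n l) P) →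
        ∀ s : ℂ, 1 / 2 + 2 * δ ≤ s.re →
        ‖series (equation D e β S (fun l => σ l + n l)) r d R T₁ T₂ s‖ ≤ (2 + 4 * ‖s‖ / δ) * (T₁ : ℝ) ^ (-δ)) (by
    intro n hn T₁ T₂ hyT h12 hT d hd R hR s hs
    have h1 := hn T₁ T₂ hyT h12 hT d hd R hR (Classical.decPred _) s hs
    refine le_trans (le_of_eq ?_) h1
    unfold series
    congr 1
    refine sum_congr ?_ fun p _ => ?_
    · ext p
      simp only [mem_filter]
    · have h2 : equation D e β S (fun l => σ l + n l) = Pool.Agent.V11210.NF.base0 D β S +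
          ∑ i, C (σ i + n i) * Pool.Agent.V11210.NF.dir D e β i := by
        unfold equation Pool.Agent.V11210.NF.base0 Pool.Agent.V11210.NF.dir Pool.Agent.V11210.NF.sect Pool.Agent.V11210.NF.mono
        rw [mul_add, mul_sum]
        have h3 : ∑ i : Fin (D - r) × (Fin (m + 1) → Fin (e + 1)), (∏ j, (X 0 - rename Fin.succ (β j))) *
            (C (σ i + (n i : ℤ)) * (X 0 ^ (i.1 : ℕ) * ∏ j, X (Fin.succ j) ^ (i.2 j : ℕ))) =
            ∑ i : Fin (D - r) × (Fin (m + 1) → Fin (e + 1)), C (σ i + (n i : ℤ)) *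
            ((∏ j, (X 0 - rename Fin.succ (β j))) * (X 0 ^ (i.1 : ℕ) * ∏ j, X (Fin.succ j) ^ (i.2 j : ℕ)) :
              MvPolynomial (Fin (m + 1 + 1)) ℤ) :=
          sum_congr rfl fun i _ => mul_left_comm _ _ _
        rw [h3]
        abel
      unfold average points Pool.Agent.V11210.NF.averageT Pool.Agent.V11210.NF.pointsT
      rw [h2])
  exact key

end Pool.Agent.Results.MP_3d3918_nt.TwistsOfFewDigitFibrations
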